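import Mathlib

/-!
# Weights: fourth roots and a telescoping sum
-/

set_option autoImplicit false

namespace Pool.Agent.V1161.PF

open Finset

/-- the fourth root -/
noncomputable def q (x : ℝ) : ℝ := Real.sqrt (Real.sqrt x)

theorem q_nonneg (x : ℝ) : 0 ≤ q x := Real.sqrt_nonneg _

theorem q_pow {x : ℝ} (hx : 0 ≤ x) : q x ^ 4 = x := by
  unfold q
  have h1 : Real.sqrt (Real.sqrt x) ^ 2 = Real.sqrt x := Real.sq_sqrt (Real.sqrt_nonneg x)
  calc Real.sqrt (Real.sqrt x) ^ 4 = (Real.sqrt (Real.sqrt x) ^ 2) ^ 2 := by ring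
    _ = Real.sqrt x ^ 2 := by rw [h1]
    _ = x := Real.sq_sqrt hx

theorem q_pos {x : ℝ} (hx : 0 < x) : 0 < q x := Real.sqrt_pos.2 (Real.sqrt_pos.2 hx)

theorem q_mono {x y : ℝ} (h : x ≤ y) : q x ≤ q y := Real.sqrt_le_sqrt (Real.sqrt_le_sqrt h)

theorem q_one : q 1 = 1 := by unfold q; simp

theorem q_mul {x y : ℝ} (hx : 0 ≤ x) : q (x * y) = q x * q y := by
  unfold q
  rw [Real.sqrt_mul hx, Real.sqrt_mul (Real.sqrt_nonneg x)]

theorem q_prod {ι : Type*} (s : Finset ι) (f : ι → ℝ) (hf : ∀ i ∈ s, 0 ≤ f i) :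
    q (∏ i ∈ s, f i) = ∏ i ∈ s, q (f i) := by
  classical
  induction s using Finset.induction_on with
  | empty => simp [q_one]
  | insert a s ha ih =>
    rw [Finset.prod_insert ha, Finset.prod_insert ha, q_mul (hf a (Finset.mem_insert_self a s)),
      ih (fun i hi => hf i (Finset.mem_insert_of_mem hi))]

/-- the weight -/
noncomputable def w (a k : ℕ) : ℝ := (q a / q k) ^ 2 * min 1 ((q a / q k) ^ 3)

theorem w_nonneg (a k : ℕ) : 0 ≤ w a k := by
  unfold w
  have h := div_nonneg (q_nonneg (a : ℝ)) (q_nonneg (k : ℝ))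
  exact mul_nonneg (pow_nonneg h 2) (le_min zero_le_one (pow_nonneg h 3))

theorem w_anti (a : ℕ) {k l : ℕ} (hk : 1 ≤ k) (hkl : k ≤ l) : w a l ≤ w a k := by
  unfold w
  have hk0 : 0 < q (k : ℝ) := q_pos (by exact_mod_cast hk)
  have h1 : q (a : ℝ) / q (l : ℝ) ≤ q (a : ℝ) / q (k : ℝ) :=
    div_le_div_of_nonneg_left (q_nonneg _) hk0 (q_mono (by exact_mod_cast hkl))
  have h0 : 0 ≤ q (a : ℝ) / q (l : ℝ) := div_nonneg (q_nonneg _) (q_nonneg _)
  refine mul_le_mul (pow_le_pow_left₀ h0 h1 2) (min_le_min le_rfl (pow_le_pow_left₀ h0 h1 3))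
    (le_min zero_le_one (pow_nonneg h0 3)) (pow_nonneg (h0.trans h1) 2)

/-- the potential -/
noncomputable def Phi (a m : ℕ) : ℝ :=
  if m ≤ a then 2 * q a ^ 2 * q m ^ 2 else 6 * a - 4 * q a ^ 5 / q m

theorem Phi_big {a m : ℕ} (ha : 1 ≤ a) (h : a ≤ m) : Phi a m = 6 * a - 4 * q a ^ 5 / q m := by
  unfold Phi
  split_ifs with h1
  · have : m = a := le_antisymm h1 h
    subst this
    have h2 : q (m : ℝ) ^ 4 = m := q_pow (Nat.cast_nonneg _)
    have h3 : 0 < q (m : ℝ) := q_pos (by exact_mod_cast ha)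
    have h4 : 4 * q (m : ℝ) ^ 5 / q (m : ℝ) = 4 * q (m : ℝ) ^ 4 := by
      field_simp
    rw [h4]
    nlinarith
  · rfl

theorem sum_le_Phi {a : ℕ} (ha : 1 ≤ a) (m : ℕ) : ∑ k ∈ range m, w a (k + 1) ≤ Phi a m := by
  have ha0 : 0 < q (a : ℝ) := q_pos (by exact_mod_cast ha)
  induction m with
  | zero =>
    simp [Phi]
    positivity
  | succ m ih =>
    rw [Finset.sum_range_succ]
    have hm1 : 0 < q ((m + 1 : ℕ) : ℝ) := q_pos (by positivity)
    rcases Nat.lt_or_ge m a with h | h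
    · have e1 : Phi a m = 2 * q a ^ 2 * q m ^ 2 := by unfold Phi; rw [if_pos h.le]
      have e2 : Phi a (m + 1) = 2 * q a ^ 2 * q ((m + 1 : ℕ) : ℝ) ^ 2 := by
        unfold Phi; rw [if_pos (by omega)]
      rw [e2]
      rw [e1] at ih
      have e3 : w a (m + 1) ≤ (q a / q ((m + 1 : ℕ) : ℝ)) ^ 2 := by
        unfold w
        calc _ ≤ (q a / q ((m + 1 : ℕ) : ℝ)) ^ 2 * 1 :=
              mul_le_mul_of_nonneg_left (min_le_left _ _) (by positivity)
          _ = _ := mul_one _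
      set u := q (m : ℝ) ^ 2 with hu
      set v := q ((m + 1 : ℕ) : ℝ) ^ 2 with hv
      have hu2 : u ^ 2 = m := by
        rw [hu, ← pow_mul]; exact q_pow (Nat.cast_nonneg _)
      have hv2 : v ^ 2 = m + 1 := by
        rw [hv, ← pow_mul]
        have := q_pow (x := ((m + 1 : ℕ) : ℝ)) (Nat.cast_nonneg _)
        rw [this]; push_cast; ring
      have hv0 : 0 < v := by positivity
      have hu0 : 0 ≤ u := by positivity
      have huv : u ≤ v := by nlinarith
      have h5 : 1 / v ≤ 2 * (v - u) := by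
        rw [div_le_iff₀ hv0]
        nlinarith
      have h6 : (q (a : ℝ) / q ((m + 1 : ℕ) : ℝ)) ^ 2 = q (a : ℝ) ^ 2 * (1 / v) := by
        rw [div_pow, hv]; ring
      have h7 : (q (a : ℝ) / q ((m + 1 : ℕ) : ℝ)) ^ 2 ≤ q (a : ℝ) ^ 2 * (2 * (v - u)) := by
        rw [h6]
        exact mul_le_mul_of_nonneg_left h5 (by positivity)
      nlinarith
    · have hm0 : 0 < q (m : ℝ) := q_pos (by exact_mod_cast ha.trans h)
      rw [Phi_big ha (by omega : a ≤ m + 1)]
      rw [Phi_big ha h] at ih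
      have e3 : w a (m + 1) ≤ (q a / q ((m + 1 : ℕ) : ℝ)) ^ 5 := by
        unfold w
        calc _ ≤ (q a / q ((m + 1 : ℕ) : ℝ)) ^ 2 * (q a / q ((m + 1 : ℕ) : ℝ)) ^ 3 :=
              mul_le_mul_of_nonneg_left (min_le_right _ _) (by positivity)
          _ = _ := by ring
      set u := q (m : ℝ) with hu
      set v := q ((m + 1 : ℕ) : ℝ) with hv
      have hu4 : u ^ 4 = m := q_pow (Nat.cast_nonneg _)
      have hv4 : v ^ 4 = m + 1 := by
        have := q_pow (x := ((m + 1 : ℕ) : ℝ)) (Nat.cast_nonneg _)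
        rw [hv, this]; push_cast; ring
      have huv : u ≤ v := q_mono (by push_cast; linarith)
      have h5 : 1 ≤ 4 * v ^ 3 * (v - u) := by
        have e : v ^ 4 - u ^ 4 = (v - u) * (v ^ 3 + v ^ 2 * u + v * u ^ 2 + u ^ 3) := by ring
        have e1 : (v - u) * (v ^ 3 + v ^ 2 * u + v * u ^ 2 + u ^ 3) = 1 := by
          rw [← e, hu4, hv4]; ring
        have e2 : v ^ 3 + v ^ 2 * u + v * u ^ 2 + u ^ 3 ≤ 4 * v ^ 3 := by
          have i1 : v ^ 2 * u ≤ v ^ 2 * v := mul_le_mul_of_nonneg_left huv (by positivity)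
          have i2 : v * u ^ 2 ≤ v * v ^ 2 :=
            mul_le_mul_of_nonneg_left (pow_le_pow_left₀ hm0.le huv 2) hm1.le
          have i3 : u ^ 3 ≤ v ^ 3 := pow_le_pow_left₀ hm0.le huv 3
          nlinarith
        have := mul_le_mul_of_nonneg_left e2 (sub_nonneg.2 huv)
        nlinarith
      have h6 : 1 / v ^ 5 ≤ 4 * (1 / u - 1 / v) := by
        have e : 1 / u - 1 / v = (v - u) / (u * v) := by
          field_simp
        rw [e, ← mul_div_assoc, div_le_div_iff₀ (by positivity) (by positivity)]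
        have i1 : v ≤ 4 * (v - u) * v ^ 4 := by
          calc v = v * 1 := (mul_one _).symm
            _ ≤ v * (4 * v ^ 3 * (v - u)) := mul_le_mul_of_nonneg_left h5 hm1.le
            _ = _ := by ring
        have i2 := mul_le_mul_of_nonneg_right i1 hm1.le
        calc 1 * (u * v) = u * v := one_mul _
          _ ≤ v * v := mul_le_mul_of_nonneg_right huv hm1.le
          _ ≤ 4 * (v - u) * v ^ 4 * v := i2
          _ = 4 * (v - u) * v ^ 5 := by ring
      have h7 : (q (a : ℝ) / v) ^ 5 ≤ q (a : ℝ) ^ 5 * (4 * (1 / u - 1 / v)) := by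
        have : (q (a : ℝ) / v) ^ 5 = q (a : ℝ) ^ 5 * (1 / v ^ 5) := by
          rw [div_pow]; ring
        rw [this]
        exact mul_le_mul_of_nonneg_left h6 (by positivity)
      have h8 : q (a : ℝ) ^ 5 * (4 * (1 / u - 1 / v)) = 4 * q (a : ℝ) ^ 5 / u - 4 * q (a : ℝ) ^ 5 / v := by
        ring
      linarith

theorem sum_w_le {a : ℕ} (ha : 1 ≤ a) (m : ℕ) : ∑ k ∈ range m, w a (k + 1) ≤ 6 * a := by
  refine (sum_le_Phi ha m).trans ?_
  have ha0 : 0 < q (a : ℝ) := q_pos (by exact_mod_cast ha)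
  have ha4 : q (a : ℝ) ^ 4 = a := q_pow (Nat.cast_nonneg _)
  unfold Phi
  split_ifs with h
  · have h1 : q (m : ℝ) ≤ q (a : ℝ) := q_mono (by exact_mod_cast h)
    have h2 : q (m : ℝ) ^ 2 ≤ q (a : ℝ) ^ 2 := pow_le_pow_left₀ (q_nonneg _) h1 2
    calc 2 * q (a : ℝ) ^ 2 * q (m : ℝ) ^ 2 ≤ 2 * q (a : ℝ) ^ 2 * q (a : ℝ) ^ 2 :=
          mul_le_mul_of_nonneg_left h2 (by positivity)
      _ = 2 * q (a : ℝ) ^ 4 := by ring
      _ = 2 * a := by rw [ha4]
      _ ≤ 6 * a := by
        have : (0 : ℝ) ≤ a := Nat.cast_nonneg _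
        linarith
  · have : 0 ≤ 4 * q (a : ℝ) ^ 5 / q (m : ℝ) := div_nonneg (by positivity) (q_nonneg _)
    linarith

/-- Summation over a set with at most `t` elements of size at most `t`. -/
theorem sum_levels {α : Type*} [DecidableEq α] (b : α → ℕ) (f : ℕ → ℝ)
    (hf : ∀ k l : ℕ, 1 ≤ k → k ≤ l → f l ≤ f k) :
    ∀ (m : ℕ) (Z : Finset α), Z.card = m → (∀ t, (Z.filter (fun z => b z ≤ t)).card ≤ t) →
      ∑ z ∈ Z, f (b z) ≤ ∑ k ∈ range m, f (k + 1) := by
  intro m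
  induction m with
  | zero =>
    intro Z hZ _
    rw [Finset.card_eq_zero.1 hZ]
    simp
  | succ m ih =>
    intro Z hZ hb
    have hne : Z.Nonempty := Finset.card_pos.1 (by omega)
    obtain ⟨z, hz, hmax⟩ := Finset.exists_max_image Z b hne
    have h1 : m + 1 ≤ b z := by
      have h2 := hb (b z)
      have h3 : Z.filter (fun y => b y ≤ b z) = Z := Finset.filter_true_of_mem (fun y hy => hmax y hy)
      rw [h3, hZ] at h2
      exact h2
    have h2 : (Z.erase z).card = m := by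
      rw [Finset.card_erase_of_mem hz, hZ]; rfl
    have h3 := ih (Z.erase z) h2 (fun t => by
      refine le_trans (Finset.card_le_card ?_) (hb t)
      exact Finset.filter_subset_filter _ (Finset.erase_subset _ _))
    rw [Finset.sum_range_succ, ← Finset.sum_erase_add _ _ hz]
    exact add_le_add h3 (hf (m + 1) (b z) (by omega) h1)

end Pool.Agent.V1161.PF
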