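import Pool.Agent.V1161.PF.A

/-!
# The largest product inside a union of products
-/

set_option autoImplicit false

namespace Pool.Agent.V1161.PF

open Finset
open scoped Pointwise

variable {d n : ℕ}

/-- Level functions: `N i` depends on the block `i` only, with the least value `0` at the origin, and
`D` is closed under decreasing all levels. -/
structure Lev (c : Fin d → Fin n) (N : Fin n → (Fin d → ℤ) → ℕ) (D : Finset (Fin d → ℤ)) : Prop where
  zero : ∀ i, N i 0 = 0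
  cyl : ∀ i u v, (∀ j, c j = i → u j = v j) → N i u = N i v
  down : ∀ x ∈ D, ∀ y, (∀ i, N i y ≤ N i x) → y ∈ D

/-- the part in the block `i` -/
def pr (c : Fin d → Fin n) (i : Fin n) (x : Fin d → ℤ) : Fin d → ℤ := fun j => if c j = i then x j else 0

/-- the part in the blocks of `J` -/
def prJ (c : Fin d → Fin n) (J : Finset (Fin n)) (x : Fin d → ℤ) : Fin d → ℤ :=
  fun j => if c j ∈ J then x j else 0

/-- the vector with given parts -/
def asm (c : Fin d → Fin n) (z : Fin n → (Fin d → ℤ)) : Fin d → ℤ := fun j => z (c j) j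

/-- the elements of `D` in the block `i` -/
def Z (c : Fin d → Fin n) (D : Finset (Fin d → ℤ)) (i : Fin n) : Finset (Fin d → ℤ) :=
  D.filter (fun z => ∀ j, c j ≠ i → z j = 0)

/-- those of level at most `t` -/
def L (c : Fin d → Fin n) (N : Fin n → (Fin d → ℤ) → ℕ) (D : Finset (Fin d → ℤ)) (i : Fin n) (t : ℕ) :
    Finset (Fin d → ℤ) := (Z c D i).filter (fun z => N i z ≤ t)

variable {c : Fin d → Fin n} {N : Fin n → (Fin d → ℤ) → ℕ} {D : Finset (Fin d → ℤ)}

theorem mem_Z {i : Fin n} {z : Fin d → ℤ} : z ∈ Z c D i ↔ z ∈ D ∧ ∀ j, c j ≠ i → z j = 0 := by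
  unfold Z; rw [Finset.mem_filter]

theorem mem_L {i : Fin n} {t : ℕ} {z : Fin d → ℤ} : z ∈ L c N D i t ↔ z ∈ Z c D i ∧ N i z ≤ t := by
  unfold L; rw [Finset.mem_filter]

theorem Lev.N_asm (h : Lev c N D) (z : Fin n → (Fin d → ℤ)) (i : Fin n) : N i (asm c z) = N i (z i) :=
  h.cyl i _ _ (fun j hj => by show z (c j) j = z i j; rw [hj])

theorem Lev.N_pr (h : Lev c N D) (x : Fin d → ℤ) (i : Fin n) : N i (pr c i x) = N i x :=
  h.cyl i _ _ (fun j hj => by show (if c j = i then x j else 0) = x j; rw [if_pos hj])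

theorem Lev.N_pr_ne (h : Lev c N D) (x : Fin d → ℤ) {i i' : Fin n} (hi : i' ≠ i) : N i' (pr c i x) = 0 := by
  rw [← h.zero i']
  exact h.cyl i' _ _ (fun j hj => by
    show (if c j = i then x j else 0) = 0
    rw [if_neg (by rw [hj]; exact hi)])

theorem Lev.pr_mem (h : Lev c N D) {x : Fin d → ℤ} (hx : x ∈ D) (i : Fin n) : pr c i x ∈ Z c D i := by
  rw [mem_Z]
  refine ⟨h.down x hx _ (fun i' => ?_), fun j hj => ?_⟩
  · by_cases hi : i' = i
    · subst hi; rw [h.N_pr]
    · rw [h.N_pr_ne x hi]; exact Nat.zero_le _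
  · show (if c j = i then x j else 0) = 0
    rw [if_neg hj]

theorem Lev.prJ_mem (h : Lev c N D) {x : Fin d → ℤ} (hx : x ∈ D) (J : Finset (Fin n)) : prJ c J x ∈ D := by
  refine h.down x hx _ (fun i => ?_)
  by_cases hi : i ∈ J
  · rw [h.cyl i (prJ c J x) x (fun j hj => by
      show (if c j ∈ J then x j else 0) = x j
      rw [if_pos (by rw [hj]; exact hi)])]
  · rw [h.cyl i (prJ c J x) 0 (fun j hj => by
      show (if c j ∈ J then x j else 0) = 0
      rw [if_neg (by rw [hj]; exact hi)]), h.zero]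
    exact Nat.zero_le _

/-- families of parts -/
def fam (c : Fin d → Fin n) (N : Fin n → (Fin d → ℤ) → ℕ) (D : Finset (Fin d → ℤ)) (J : Finset (Fin n))
    (t : Fin n → ℕ) : Finset (Fin n → (Fin d → ℤ)) :=
  Fintype.piFinset (fun i => if i ∈ J then L c N D i (t i) else {0})

theorem mem_fam {J : Finset (Fin n)} {t : Fin n → ℕ} {z : Fin n → (Fin d → ℤ)} :
    z ∈ fam c N D J t ↔ (∀ i ∈ J, z i ∈ L c N D i (t i)) ∧ ∀ i, i ∉ J → z i = 0 := by
  unfold fam
  rw [Fintype.mem_piFinset]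
  constructor
  · intro h
    refine ⟨fun i hi => ?_, fun i hi => ?_⟩
    · have := h i; rwa [if_pos hi] at this
    · have := h i; rw [if_neg hi, Finset.mem_singleton] at this; exact this
  · rintro ⟨h1, h2⟩ i
    split_ifs with hi
    · exact h1 i hi
    · rw [Finset.mem_singleton]; exact h2 i hi

theorem card_fam (J : Finset (Fin n)) (t : Fin n → ℕ) :
    (fam c N D J t).card = ∏ i ∈ J, (L c N D i (t i)).card := by
  unfold fam
  rw [Fintype.card_piFinset]
  have h1 : ∀ i, (if i ∈ J then L c N D i (t i) else {0}).card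
      = if i ∈ J then (L c N D i (t i)).card else 1 := by
    intro i
    split_ifs <;> simp
  rw [Finset.prod_congr rfl (fun i _ => h1 i), Finset.prod_ite_mem, Finset.univ_inter]

theorem asm_inj {J : Finset (Fin n)} {t : Fin n → ℕ} :
    Set.InjOn (asm c) (fam c N D J t : Set (Fin n → (Fin d → ℤ))) := by
  intro z hz z' hz' h
  have hz1 := mem_fam.1 (Finset.mem_coe.1 hz)
  have hz1' := mem_fam.1 (Finset.mem_coe.1 hz')
  funext i
  by_cases hi : i ∈ J
  · funext j
    by_cases hj : c j = i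
    · have h2 := congrFun h j
      have h3 : z (c j) j = z' (c j) j := h2
      rwa [hj] at h3
    · rw [(mem_Z.1 (mem_L.1 (hz1.1 i hi)).1).2 j hj, (mem_Z.1 (mem_L.1 (hz1'.1 i hi)).1).2 j hj]
  · rw [hz1.2 i hi, hz1'.2 i hi]

/-- the level of the parts of a family -/
theorem Lev.fam_level (h : Lev c N D) {J : Finset (Fin n)} {t : Fin n → ℕ} {z : Fin n → (Fin d → ℤ)}
    (hz : z ∈ fam c N D J t) (i : Fin n) : N i (z i) ≤ if i ∈ J then t i else 0 := by
  have hz' := mem_fam.1 hz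
  split_ifs with hi
  · exact (mem_L.1 (hz'.1 i hi)).2
  · rw [hz'.2 i hi, h.zero]

/-- the product with the levels of `x` -/
def P (c : Fin d → Fin n) (N : Fin n → (Fin d → ℤ) → ℕ) (D : Finset (Fin d → ℤ)) (J : Finset (Fin n))
    (x : Fin d → ℤ) : Finset (Fin d → ℤ) :=
  D.filter (fun y => (∀ j, c j ∉ J → y j = 0) ∧ ∀ i ∈ J, N i y ≤ N i x)

theorem Lev.card_P (h : Lev c N D) {J : Finset (Fin n)} {x : Fin d → ℤ} (hx : x ∈ D) :
    ∏ i ∈ J, (L c N D i (N i x)).card ≤ (P c N D J x).card := by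
  rw [← card_fam J (fun i => N i x)]
  refine Finset.card_le_card_of_injOn (asm c) ?_ asm_inj
  intro z hz
  have hz := Finset.mem_coe.1 hz
  have hl := h.fam_level hz
  unfold P
  rw [Finset.mem_coe, Finset.mem_filter]
  refine ⟨h.down x hx _ (fun i => ?_), fun j hj => ?_, fun i hi => ?_⟩
  · rw [h.N_asm]
    refine (hl i).trans ?_
    split_ifs
    · exact le_rfl
    · exact Nat.zero_le _
  · show z (c j) j = 0
    rw [(mem_fam.1 hz).2 (c j) hj]; rfl
  · rw [h.N_asm]
    have := hl i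
    rwa [if_pos hi] at this

theorem Lev.card_add (h : Lev c N D) {J : Finset (Fin n)} {x y : Fin d → ℤ} (hx : x ∈ D) (hy : y ∈ D) :
    ∏ i ∈ J, (L c N D i (max (N i x) (N i y))).card ≤ (D + D).card := by
  rw [← card_fam J (fun i => max (N i x) (N i y))]
  refine Finset.card_le_card_of_injOn (asm c) ?_ asm_inj
  intro z hz
  have hz := Finset.mem_coe.1 hz
  have hl := h.fam_level hz
  rw [Finset.mem_coe, Finset.mem_add]
  refine ⟨asm c (fun i => if N i (z i) ≤ N i x then z i else 0), ?_,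
    asm c (fun i => if N i (z i) ≤ N i x then 0 else z i), ?_, ?_⟩
  · refine h.down x hx _ (fun i => ?_)
    rw [h.N_asm]
    split_ifs with h1
    · exact h1
    · rw [h.zero]; exact Nat.zero_le _
  · refine h.down y hy _ (fun i => ?_)
    rw [h.N_asm]
    split_ifs with h1
    · rw [h.zero]; exact Nat.zero_le _
    · have h2 := hl i
      split_ifs at h2 with h3
      · rcases le_max_iff.1 h2 with h4 | h4
        · exact absurd h4 h1
        · exact h4
      · exact absurd (h2.trans (Nat.zero_le _)) h1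
  · funext j
    show (if N (c j) (z (c j)) ≤ N (c j) x then z (c j) else 0) j
      + (if N (c j) (z (c j)) ≤ N (c j) x then 0 else z (c j)) j = z (c j) j
    split_ifs <;> simp

theorem L_mono (i : Fin n) {s t : ℕ} (hst : s ≤ t) : L c N D i s ⊆ L c N D i t := by
  intro z hz
  rw [mem_L] at hz ⊢
  exact ⟨hz.1, hz.2.trans hst⟩

theorem Lev.L_pos (h : Lev c N D) (hne : D.Nonempty) (i : Fin n) (t : ℕ) : 1 ≤ (L c N D i t).card := by
  obtain ⟨x, hx⟩ := hne
  have h0 : (0 : Fin d → ℤ) ∈ D := h.down x hx 0 (fun i => by rw [h.zero]; exact Nat.zero_le _)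
  have h1 : (0 : Fin d → ℤ) ∈ L c N D i t := by
    rw [mem_L, mem_Z, h.zero]
    exact ⟨⟨h0, fun _ _ => rfl⟩, Nat.zero_le _⟩
  exact Finset.card_pos.2 ⟨0, h1⟩

theorem sum_L_le (i : Fin n) {a : ℕ} (ha : 1 ≤ a) :
    ∑ z ∈ Z c D i, w a (L c N D i (N i z)).card ≤ 6 * a := by
  classical
  refine le_trans (sum_levels (fun z => (L c N D i (N i z)).card) (w a)
    (fun k l hk hkl => w_anti a hk hkl) _ (Z c D i) rfl ?_) (sum_w_le ha _)
  intro t
  rcases (Finset.eq_empty_or_nonempty ((Z c D i).filter (fun z => (L c N D i (N i z)).card ≤ t))) with h | h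
  · rw [h]; simp
  · obtain ⟨z, hz, hmax⟩ := Finset.exists_max_image _ (N i) h
    have hz' := Finset.mem_filter.1 hz
    refine le_trans (Finset.card_le_card ?_) hz'.2
    intro y hy
    rw [mem_L]
    exact ⟨(Finset.mem_filter.1 hy).1, hmax y hy⟩

/-- the elements with parts in the blocks of `J` only -/
def DJ (c : Fin d → Fin n) (D : Finset (Fin d → ℤ)) (J : Finset (Fin n)) : Finset (Fin d → ℤ) :=
  D.filter (fun y => ∀ j, c j ∉ J → y j = 0)

theorem Lev.sum_DJ (h : Lev c N D) (J : Finset (Fin n)) (a : Fin n → ℕ) (ha : ∀ i ∈ J, 1 ≤ a i) :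
    ∑ y ∈ DJ c D J, ∏ i ∈ J, w (a i) (L c N D i (N i y)).card ≤ ∏ i ∈ J, (6 * (a i : ℝ)) := by
  classical
  obtain ⟨F, hF⟩ : ∃ F : (Fin n → (Fin d → ℤ)) → ℝ, ∀ z, F z
      = ∏ i, (if i ∈ J then w (a i) (L c N D i (N i (z i))).card else 1) := ⟨_, fun _ => rfl⟩
  obtain ⟨g, hg⟩ : ∃ g : (Fin d → ℤ) → (Fin n → (Fin d → ℤ)), ∀ y i, g y i
      = if i ∈ J then pr c i y else 0 := ⟨_, fun _ _ => rfl⟩
  have hinj : Set.InjOn g (DJ c D J : Set (Fin d → ℤ)) := by
    intro y hy y' hy' he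
    have hy1 := (Finset.mem_filter.1 (Finset.mem_coe.1 hy)).2
    have hy1' := (Finset.mem_filter.1 (Finset.mem_coe.1 hy')).2
    funext j
    by_cases hj : c j ∈ J
    · have h3 := congrFun (congrFun he (c j)) j
      rw [hg, hg, if_pos hj, if_pos hj] at h3
      have h4 : (if c j = c j then y j else 0) = (if c j = c j then y' j else 0) := h3
      simpa using h4
    · rw [hy1 j hj, hy1' j hj]
  have hF0 : ∀ z, 0 ≤ F z := by
    intro z
    rw [hF]
    refine Finset.prod_nonneg (fun i _ => ?_)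
    split_ifs
    · exact w_nonneg _ _
    · exact zero_le_one
  have h2 : ∀ y ∈ DJ c D J, ∏ i ∈ J, w (a i) (L c N D i (N i y)).card = F (g y) := by
    intro y _
    rw [hF, Finset.prod_ite_mem, Finset.univ_inter]
    refine Finset.prod_congr rfl (fun i hi => ?_)
    rw [hg, if_pos hi, h.N_pr]
  have h1 : ∑ y ∈ DJ c D J, ∏ i ∈ J, w (a i) (L c N D i (N i y)).card
      ≤ ∑ z ∈ Fintype.piFinset (fun i => if i ∈ J then Z c D i else {0}), F z := by
    rw [Finset.sum_congr rfl h2, ← Finset.sum_image hinj]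
    refine Finset.sum_le_sum_of_subset_of_nonneg ?_ (fun z _ _ => hF0 z)
    intro z hz
    obtain ⟨y, hy, rfl⟩ := Finset.mem_image.1 hz
    rw [Fintype.mem_piFinset]
    intro i
    rw [hg]
    split_ifs with hi
    · exact h.pr_mem (Finset.mem_filter.1 hy).1 i
    · simp
  have h1' : ∑ z ∈ Fintype.piFinset (fun i => if i ∈ J then Z c D i else {0}), F z
      = ∑ z ∈ Fintype.piFinset (fun i => if i ∈ J then Z c D i else {0}),
        ∏ i, (if i ∈ J then w (a i) (L c N D i (N i (z i))).card else 1) :=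
    Finset.sum_congr rfl (fun z _ => hF z)
  rw [h1'] at h1
  refine h1.trans ?_
  have h3 := Finset.prod_univ_sum (fun i : Fin n => if i ∈ J then Z c D i else {0})
    (fun i (z : Fin d → ℤ) => if i ∈ J then w (a i) (L c N D i (N i z)).card else (1 : ℝ))
  rw [← h3]
  have h4 : ∀ i : Fin n, (∑ z ∈ (if i ∈ J then Z c D i else {0}),
      (if i ∈ J then w (a i) (L c N D i (N i z)).card else (1 : ℝ)))
      = if i ∈ J then ∑ z ∈ Z c D i, w (a i) (L c N D i (N i z)).card else 1 := by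
    intro i
    split_ifs <;> simp
  rw [Finset.prod_congr rfl (fun i _ => h4 i), Finset.prod_ite_mem, Finset.univ_inter]
  refine Finset.prod_le_prod (fun i _ => Finset.sum_nonneg (fun z _ => w_nonneg _ _)) (fun i hi => ?_)
  exact sum_L_le i (ha i hi)

/-- **The box lemma.** -/
theorem Lev.box (h : Lev c N D) (hne : D.Nonempty) (J : Finset (Fin n)) :
    ∃ x ∈ D, ((DJ c D J).card : ℝ) ≤ 6 ^ J.card * q (D + D).card ^ 3 * q (P c N D J x).card := by
  classical
  obtain ⟨x1, hx1⟩ := id hne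
  have h0 : (0 : Fin d → ℤ) ∈ DJ c D J :=
    Finset.mem_filter.2 ⟨h.down x1 hx1 0 (fun i => by rw [h.zero]; exact Nat.zero_le _), fun _ _ => rfl⟩
  obtain ⟨x, hx, hmax⟩ := Finset.exists_max_image (DJ c D J)
    (fun y => ∏ i ∈ J, (L c N D i (N i y)).card) ⟨0, h0⟩
  have hxD : x ∈ D := (Finset.mem_filter.1 hx).1
  refine ⟨x, hxD, ?_⟩
  set a : Fin n → ℕ := fun i => (L c N D i (N i x)).card with ha
  have ha1 : ∀ i, 1 ≤ a i := fun i => h.L_pos hne i _
  set M : ℕ := ∏ i ∈ J, a i with hM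
  have hMpos : 0 < M := Finset.prod_pos (fun i _ => ha1 i)
  set S : ℕ := (D + D).card with hS
  have hqM : q (M : ℝ) = ∏ i ∈ J, q (a i : ℝ) := by
    rw [hM, Nat.cast_prod]
    exact q_prod J _ (fun i _ => Nat.cast_nonneg _)
  have hqM0 : 0 < q (M : ℝ) := q_pos (by exact_mod_cast hMpos)
  have key : ∀ y ∈ DJ c D J, q (M : ℝ) ^ 3 ≤ q (S : ℝ) ^ 3 * ∏ i ∈ J, w (a i) (L c N D i (N i y)).card := by
    intro y hy
    have hyD : y ∈ D := (Finset.mem_filter.1 hy).1
    set b : Fin n → ℕ := fun i => (L c N D i (N i y)).card with hb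
    have hb1 : ∀ i, 1 ≤ b i := fun i => h.L_pos hne i _
    have hqa : ∀ i, 0 < q (a i : ℝ) := fun i => q_pos (by exact_mod_cast ha1 i)
    have hqb : ∀ i, 0 < q (b i : ℝ) := fun i => q_pos (by exact_mod_cast hb1 i)
    have hBM : ∏ i ∈ J, b i ≤ M := hmax y hy
    have hqB : ∏ i ∈ J, q (b i : ℝ) ≤ ∏ i ∈ J, q (a i : ℝ) := by
      rw [← hqM, ← q_prod J _ (fun i _ => Nat.cast_nonneg _), ← Nat.cast_prod]
      exact q_mono (by exact_mod_cast hBM)
    have hmaxS : ∏ i ∈ J, q ((max (a i) (b i) : ℕ) : ℝ) ≤ q (S : ℝ) := by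
      rw [← q_prod J _ (fun i _ => Nat.cast_nonneg _), ← Nat.cast_prod]
      refine q_mono ?_
      have h2 := h.card_add (J := J) hxD hyD
      have h3 : ∏ i ∈ J, max (a i) (b i) ≤ ∏ i ∈ J, (L c N D i (max (N i x) (N i y))).card :=
        Finset.prod_le_prod' (fun i _ => max_le (Finset.card_le_card (L_mono i (le_max_left _ _)))
          (Finset.card_le_card (L_mono i (le_max_right _ _))))
      exact_mod_cast h3.trans h2
    -- the product of the weights
    have e1 : ∏ i ∈ J, w (a i) (b i)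
        = ((∏ i ∈ J, q (a i : ℝ)) / ∏ i ∈ J, q (b i : ℝ)) ^ 2
          * ∏ i ∈ J, min 1 ((q (a i : ℝ) / q (b i : ℝ)) ^ 3) := by
      unfold w
      rw [Finset.prod_mul_distrib, Finset.prod_pow, Finset.prod_div_distrib]
    have e2 : ∀ i, q (a i : ℝ) ^ 3 = q ((max (a i) (b i) : ℕ) : ℝ) ^ 3 * min 1 ((q (a i : ℝ) / q (b i : ℝ)) ^ 3) := by
      intro i
      rcases le_total (a i) (b i) with h5 | h5
      · rw [max_eq_right h5]
        have h6 : q (a i : ℝ) / q (b i : ℝ) ≤ 1 := by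
          rw [div_le_one (hqb i)]
          exact q_mono (by exact_mod_cast h5)
        rw [min_eq_right (pow_le_one₀ (div_nonneg (hqa i).le (hqb i).le) h6), div_pow, mul_comm,
          div_mul_cancel₀ _ (pow_pos (hqb i) 3).ne']
      · rw [max_eq_left h5]
        have h6 : 1 ≤ q (a i : ℝ) / q (b i : ℝ) := by
          rw [one_le_div (hqb i)]
          exact q_mono (by exact_mod_cast h5)
        rw [min_eq_left (one_le_pow₀ h6), mul_one]
    have e3 : q (M : ℝ) ^ 3 = (∏ i ∈ J, q ((max (a i) (b i) : ℕ) : ℝ)) ^ 3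
        * ∏ i ∈ J, min 1 ((q (a i : ℝ) / q (b i : ℝ)) ^ 3) := by
      rw [hqM, ← Finset.prod_pow, ← Finset.prod_pow, ← Finset.prod_mul_distrib]
      exact Finset.prod_congr rfl (fun i _ => e2 i)
    have hmin0 : 0 ≤ ∏ i ∈ J, min (1 : ℝ) ((q (a i : ℝ) / q (b i : ℝ)) ^ 3) :=
      Finset.prod_nonneg (fun i _ => le_min zero_le_one (pow_nonneg (div_nonneg (hqa i).le (hqb i).le) 3))
    have hB0 : 0 < ∏ i ∈ J, q (b i : ℝ) := Finset.prod_pos (fun i _ => hqb i)
    have h7 : 1 ≤ ((∏ i ∈ J, q (a i : ℝ)) / ∏ i ∈ J, q (b i : ℝ)) ^ 2 :=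
      one_le_pow₀ ((one_le_div hB0).2 hqB)
    have h8 : ∏ i ∈ J, min (1 : ℝ) ((q (a i : ℝ) / q (b i : ℝ)) ^ 3) ≤ ∏ i ∈ J, w (a i) (b i) := by
      rw [e1]
      calc _ = 1 * ∏ i ∈ J, min (1 : ℝ) ((q (a i : ℝ) / q (b i : ℝ)) ^ 3) := (one_mul _).symm
        _ ≤ _ := mul_le_mul_of_nonneg_right h7 hmin0
    rw [e3]
    refine mul_le_mul (pow_le_pow_left₀ (Finset.prod_nonneg (fun i _ => q_nonneg _)) hmaxS 3) h8 hmin0
      (pow_nonneg (q_nonneg _) 3)
  have hsum : ((DJ c D J).card : ℝ) * q (M : ℝ) ^ 3 ≤ q (S : ℝ) ^ 3 * (6 ^ J.card * M) := by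
    have h1 := Finset.sum_le_sum key
    rw [Finset.sum_const, nsmul_eq_mul, ← Finset.mul_sum] at h1
    refine h1.trans (mul_le_mul_of_nonneg_left ?_ (pow_nonneg (q_nonneg _) 3))
    refine (h.sum_DJ J a (fun i _ => ha1 i)).trans (le_of_eq ?_)
    rw [Finset.prod_mul_distrib, Finset.prod_const, hM, Nat.cast_prod]
  have hM4 : (M : ℝ) = q (M : ℝ) ^ 3 * q (M : ℝ) := by
    rw [← pow_succ]; exact (q_pow (Nat.cast_nonneg _)).symm
  have h9 : ((DJ c D J).card : ℝ) ≤ 6 ^ J.card * q (S : ℝ) ^ 3 * q (M : ℝ) := by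
    have h10 : ((DJ c D J).card : ℝ) * q (M : ℝ) ^ 3
        ≤ (6 ^ J.card * q (S : ℝ) ^ 3 * q (M : ℝ)) * q (M : ℝ) ^ 3 := by
      refine hsum.trans (le_of_eq ?_)
      calc q (S : ℝ) ^ 3 * (6 ^ J.card * (M : ℝ))
          = q (S : ℝ) ^ 3 * (6 ^ J.card * (q (M : ℝ) ^ 3 * q (M : ℝ))) := by rw [← hM4]
        _ = _ := by ring
    exact le_of_mul_le_mul_right h10 (pow_pos hqM0 3)
  refine h9.trans (mul_le_mul_of_nonneg_left (q_mono ?_)
    (mul_nonneg (by positivity) (pow_nonneg (q_nonneg _) 3)))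
  exact_mod_cast h.card_P (J := J) hxD

end Pool.Agent.V1161.PF
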