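import Pool.Agent.V1161.PF.B
import Pool.Agent.Y806.DF.D

/-!
# Few blocks, chains of convex sets
-/

set_option autoImplicit false

namespace Pool.Agent.V1161.PF

open Finset
open scoped Pointwise
open Pool.Agent.Y806.DF

theorem sel {r d : ℕ} (φ : (Fin r → ℤ) →ₗ[ℤ] (Fin d → ℤ)) (hφ : Function.Injective φ) :
    ∀ (k : ℕ) (Λ : Submodule ℤ (Fin r → ℤ)), Module.finrank ℤ Λ ≤ k →
      ∃ J : Finset (Fin d), J.card ≤ k ∧ ∀ v ∈ Λ, (∀ j ∈ J, φ v j = 0) → v = 0 := by
  classical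
  intro k
  induction k with
  | zero =>
    intro Λ hΛ
    have h1 : Λ = ⊥ := Submodule.finrank_eq_zero.1 (Nat.le_zero.1 hΛ)
    refine ⟨∅, le_rfl, fun v hv _ => ?_⟩
    rw [h1, Submodule.mem_bot] at hv
    exact hv
  | succ k ih =>
    intro Λ hΛ
    by_cases hb : Λ = ⊥
    · refine ⟨∅, Nat.zero_le _, fun v hv _ => ?_⟩
      rw [hb, Submodule.mem_bot] at hv
      exact hv
    · obtain ⟨v, hv, hv0⟩ := Submodule.exists_mem_ne_zero_of_ne_bot hb
      have h1 : φ v ≠ 0 := fun h => hv0 (hφ (by rw [h, map_zero]))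
      obtain ⟨j, hj⟩ := Function.ne_iff.1 h1
      let ℓ : Λ →ₗ[ℤ] ℤ := (LinearMap.proj j).comp (φ.comp Λ.subtype)
      have hr0 : LinearMap.range ℓ ≠ ⊥ := by
        intro h
        have h2 : ℓ ⟨v, hv⟩ ∈ LinearMap.range ℓ := ⟨_, rfl⟩
        rw [h, Submodule.mem_bot] at h2
        exact hj h2
      have h3 : Module.finrank ℤ (LinearMap.range ℓ) ≠ 0 := fun h => hr0 (Submodule.finrank_eq_zero.1 h)
      have h4 := Submodule.finrank_quotient_add_finrank (LinearMap.ker ℓ)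
      rw [ℓ.quotKerEquivRange.finrank_eq] at h4
      have h5 : Module.finrank ℤ ((LinearMap.ker ℓ).map Λ.subtype) = Module.finrank ℤ (LinearMap.ker ℓ) :=
        (Submodule.equivMapOfInjective Λ.subtype Λ.injective_subtype _).finrank_eq.symm
      obtain ⟨J, hJ, hJ'⟩ := ih ((LinearMap.ker ℓ).map Λ.subtype) (by omega)
      refine ⟨insert j J, (Finset.card_insert_le _ _).trans (by omega), fun u hu hu0 => ?_⟩
      refine hJ' u ?_ (fun i hi => hu0 i (Finset.mem_insert_of_mem hi))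
      refine ⟨⟨u, hu⟩, ?_, rfl⟩
      exact hu0 j (Finset.mem_insert_self _ _)

theorem coords {r d : ℕ} (φ : (Fin r → ℤ) →+ (Fin d → ℤ)) (hφ : Function.Injective φ) :
    ∃ J : Finset (Fin d), J.card ≤ r ∧ ∀ v, (∀ j ∈ J, φ v j = 0) → v = 0 := by
  obtain ⟨J, h1, h2⟩ := sel φ.toIntLinearMap hφ r ⊤ (by rw [finrank_top]; simp)
  exact ⟨J, h1, fun v hv => h2 v trivial hv⟩

/-- Chains of convex sets: `𝓒 i` is a chain of convex sets which contain `0` and are defined by
conditions on the coordinates in the block `i`. -/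
structure Chains {d n : ℕ} (c : Fin d → Fin n) (𝓒 : Fin n → Set (Set (Fin d → ℝ))) : Prop where
  conv : ∀ i, ∀ U ∈ 𝓒 i, Convex ℝ U
  zero : ∀ i, ∀ U ∈ 𝓒 i, (0 : Fin d → ℝ) ∈ U
  cyl : ∀ i, ∀ U ∈ 𝓒 i, ∀ u v : Fin d → ℝ, (∀ j, c j = i → u j = v j) → u ∈ U → v ∈ U
  chain : ∀ i, ∀ U ∈ 𝓒 i, ∀ V ∈ 𝓒 i, U ⊆ V ∨ V ⊆ U

/-- `D` is a union of sets of the integer points of products of members of the chains. -/
def UnionOfProducts {d n : ℕ} (𝓒 : Fin n → Set (Set (Fin d → ℝ))) (D : Finset (Fin d → ℤ)) : Prop :=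
  ∀ x ∈ D, ∃ U : Fin n → Set (Fin d → ℝ), (∀ i, U i ∈ 𝓒 i) ∧ (∀ i, re x ∈ U i) ∧
    ∀ y : Fin d → ℤ, (∀ i, re y ∈ U i) → y ∈ D

variable {d n : ℕ} {c : Fin d → Fin n} {𝓒 : Fin n → Set (Set (Fin d → ℝ))} {D : Finset (Fin d → ℤ)}

open Classical in
/-- the number of the chosen sets which do not contain `u` -/
noncomputable def lev (D : Finset (Fin d → ℤ)) (U : (Fin d → ℤ) → Fin n → Set (Fin d → ℝ)) (i : Fin n)
    (u : Fin d → ℝ) : ℕ := (D.filter (fun x => u ∉ U x i)).card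

theorem lev_mono (h𝓒 : Chains c 𝓒) {U : (Fin d → ℤ) → Fin n → Set (Fin d → ℝ)}
    (hU : ∀ x ∈ D, ∀ i, U x i ∈ 𝓒 i) {i : Fin n} {u v : Fin d → ℝ} (h : lev D U i u ≤ lev D U i v)
    {x : Fin d → ℤ} (hx : x ∈ D) (hv : v ∈ U x i) : u ∈ U x i := by
  classical
  by_contra hu
  have h1 : lev D U i v < lev D U i u := by
    unfold lev
    refine Finset.card_lt_card ?_
    rw [Finset.ssubset_iff_of_subset]
    · refine ⟨x, ?_, ?_⟩
      · simp only [Finset.mem_filter]
        exact ⟨hx, hu⟩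
      · simp only [Finset.mem_filter, not_and, not_not]
        exact fun _ => hv
    · intro x' hx'
      simp only [Finset.mem_filter] at hx' ⊢
      refine ⟨hx'.1, fun hu' => ?_⟩
      rcases h𝓒.chain i _ (hU x' hx'.1 i) _ (hU x hx i) with h2 | h2
      · exact hu (h2 hu')
      · exact hx'.2 (h2 hv)
  omega

theorem lev_conv (h𝓒 : Chains c 𝓒) {U : (Fin d → ℤ) → Fin n → Set (Fin d → ℝ)}
    (hU : ∀ x ∈ D, ∀ i, U x i ∈ 𝓒 i) (i : Fin n) (k : ℕ) : Convex ℝ {u | lev D U i u ≤ k} := by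
  classical
  have key : ∀ u v : Fin d → ℝ, lev D U i u ≤ lev D U i v → ∀ a b : ℝ, 0 ≤ a → 0 ≤ b → a + b = 1 →
      lev D U i (a • u + b • v) ≤ lev D U i v := by
    intro u v huv a b ha hb hab
    conv_lhs => unfold lev
    conv_rhs => unfold lev
    refine Finset.card_le_card ?_
    intro x hx
    simp only [Finset.mem_filter] at hx ⊢
    refine ⟨hx.1, fun hv => hx.2 ?_⟩
    exact h𝓒.conv i _ (hU x hx.1 i) (lev_mono h𝓒 hU huv hx.1 hv) hv ha hb hab
  intro u hu v hv a b ha hb hab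
  rcases le_total (lev D U i u) (lev D U i v) with h | h
  · exact (key u v h a b ha hb hab).trans hv
  · have h1 := key v u h b a hb ha (by rw [add_comm]; exact hab)
    rw [add_comm (b • v)] at h1
    exact h1.trans hu

theorem re_zero' : re (0 : Fin d → ℤ) = 0 := by
  funext i; simp [re]

theorem toLev (h𝓒 : Chains c 𝓒) {U : (Fin d → ℤ) → Fin n → Set (Fin d → ℝ)}
    (hU : ∀ x ∈ D, ∀ i, U x i ∈ 𝓒 i) (hU1 : ∀ x ∈ D, ∀ i, re x ∈ U x i)
    (hU2 : ∀ x ∈ D, ∀ y, (∀ i, re y ∈ U x i) → y ∈ D) :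
    Lev c (fun i v => lev D U i (re v)) D where
  zero := by
    classical
    intro i
    show lev D U i (re 0) = 0
    unfold lev
    rw [Finset.card_eq_zero, Finset.filter_eq_empty_iff]
    intro x hx
    rw [not_not, re_zero']
    exact h𝓒.zero i _ (hU x hx i)
  cyl := by
    intro i u v huv
    show lev D U i (re u) = lev D U i (re v)
    have h1 : ∀ u v : Fin d → ℤ, (∀ j, c j = i → u j = v j) → ∀ x ∈ D, re u ∈ U x i → re v ∈ U x i :=
      fun u v huv x hx h => h𝓒.cyl i _ (hU x hx i) _ _ (fun j hj => by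
        show (u j : ℝ) = (v j : ℝ); rw [huv j hj]) h
    unfold lev
    refine congrArg Finset.card ?_
    ext x
    simp only [Finset.mem_filter]
    exact and_congr_right (fun hx =>
      not_congr ⟨h1 u v huv x hx, h1 v u (fun j hj => (huv j hj).symm) x hx⟩)
  down := by
    intro x hx y hy
    exact hU2 x hx y (fun i => lev_mono h𝓒 hU (hy i) hx (hU1 x hx i))

/-- A large product inside `D`. -/
theorem large (h𝓒 : Chains c 𝓒) (hD : UnionOfProducts 𝓒 D) (hne : D.Nonempty) {K : ℝ}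
    (hK : ((D + D).card : ℝ) ≤ K * D.card) :
    ∃ X : Finset (Fin d → ℤ), X ⊆ D ∧ X.Nonempty ∧ hull X ⊆ X ∧
      (D.card : ℝ) ≤ 4096 * K ^ 4736 * X.card := by
  classical
  have hK1 := one_le_K hne hK
  have hK0 : 0 < K := by linarith
  choose! U hU hU1 hU2 using hD
  have hL := toLev h𝓒 hU hU1 hU2
  set N : Fin n → (Fin d → ℤ) → ℕ := fun i v => lev D U i (re v) with hN
  obtain ⟨r, φ, t, Y, hr, hφ, hY, hDY, hsub⟩ := reduce D hne hK1 hK
  obtain ⟨J0, hJ0, hinj⟩ := coords φ hφ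
  set J : Finset (Fin n) := J0.image c with hJ
  have hJr : J.card ≤ r := Finset.card_image_le.trans hJ0
  have hYD : Y.card ≤ (DJ c D J).card := by
    refine Finset.card_le_card_of_injOn (fun y => prJ c J (t + φ y)) ?_ ?_
    · intro y hy
      refine Finset.mem_coe.2 (Finset.mem_filter.2 ⟨hL.prJ_mem (hsub y hy) J, fun j hj => ?_⟩)
      show (if c j ∈ J then (t + φ y) j else 0) = 0
      rw [if_neg hj]
    · intro y _ y' _ h
      have h1 : y - y' = 0 := by
        refine hinj _ (fun j hj => ?_)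
        have h2 := congrFun h j
        have h3 : (if c j ∈ J then (t + φ y) j else 0) = (if c j ∈ J then (t + φ y') j else 0) := h2
        rw [if_pos (Finset.mem_image_of_mem c hj), if_pos (Finset.mem_image_of_mem c hj)] at h3
        rw [Pi.add_apply, Pi.add_apply] at h3
        rw [map_sub, Pi.sub_apply]
        linarith
      exact sub_eq_zero.1 h1
  obtain ⟨x, hx, hbox⟩ := hL.box hne J
  have h0 : (0 : Fin d → ℤ) ∈ P c N D J x := by
    refine Finset.mem_filter.2 ⟨hL.down x hx 0 (fun i => by rw [hL.zero]; exact Nat.zero_le _),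
      fun _ _ => rfl, fun i _ => ?_⟩
    rw [hL.zero]; exact Nat.zero_le _
  refine ⟨P c N D J x, Finset.filter_subset _ _, ⟨0, h0⟩, ?_, ?_⟩
  · -- the hull
    intro y hy
    set Q : Set (Fin d → ℝ) := {u | (∀ j, c j ∉ J → u j = 0) ∧ ∀ i ∈ J, lev D U i u ≤ N i x} with hQ
    have hQc : Convex ℝ Q := by
      have e : Q = {u | ∀ j, c j ∉ J → u j = 0} ∩ ⋂ i ∈ J, {u | lev D U i u ≤ N i x} := by
        ext u
        simp [hQ]
      rw [e]
      refine Convex.inter ?_ (convex_iInter₂ (fun i _ => lev_conv h𝓒 hU i _))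
      intro u hu v hv a b _ _ _ j hj
      show a * u j + b * v j = 0
      rw [hu j hj, hv j hj]; ring
    have h1 : re '' ((P c N D J x : Finset (Fin d → ℤ)) : Set (Fin d → ℤ)) ⊆ Q := by
      rintro _ ⟨v, hv, rfl⟩
      have hv' := (Finset.mem_filter.1 (Finset.mem_coe.1 hv)).2
      refine ⟨fun j hj => ?_, hv'.2⟩
      show (v j : ℝ) = 0
      rw [hv'.1 j hj]; simp
    have h2 : re y ∈ Q := convexHull_min h1 hQc hy
    have h3 : ∀ j, c j ∉ J → y j = 0 := by
      intro j hj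
      have : (y j : ℝ) = 0 := h2.1 j hj
      exact_mod_cast this
    refine Finset.mem_coe.2 (Finset.mem_filter.2 ⟨hL.down x hx y (fun i => ?_), h3, h2.2⟩)
    by_cases hi : i ∈ J
    · exact h2.2 i hi
    · have h4 : N i y = 0 := by
        rw [hL.cyl i y 0 (fun j hj => by rw [h3 j (by rw [hj]; exact hi)]; rfl), hL.zero]
      rw [h4]; exact Nat.zero_le _
  · -- the number of elements
    set X := P c N D J x with hX
    have hXpos : (0 : ℝ) < X.card := by exact_mod_cast Finset.card_pos.2 ⟨0, h0⟩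
    have hDpos : (0 : ℝ) < D.card := by exact_mod_cast hne.card_pos
    have h1 : (D.card : ℝ) ≤ K ^ 185 * (6 ^ r * q (K * D.card) ^ 3 * q X.card) := by
      calc (D.card : ℝ) ≤ K ^ 185 * Y.card := hDY
        _ ≤ K ^ 185 * (DJ c D J).card :=
          mul_le_mul_of_nonneg_left (by exact_mod_cast hYD) (by positivity)
        _ ≤ K ^ 185 * (6 ^ J.card * q (D + D).card ^ 3 * q X.card) :=
          mul_le_mul_of_nonneg_left hbox (by positivity)
        _ ≤ K ^ 185 * (6 ^ r * q (K * D.card) ^ 3 * q X.card) := by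
          refine mul_le_mul_of_nonneg_left (mul_le_mul_of_nonneg_right ?_ (q_nonneg _)) (by positivity)
          exact mul_le_mul (pow_le_pow_right₀ (by norm_num) hJr)
            (pow_le_pow_left₀ (q_nonneg _) (q_mono hK) 3) (pow_nonneg (q_nonneg _) 3) (by positivity)
    have h2 : (D.card : ℝ) ^ 4 ≤ (K ^ 743 * 1296 ^ r * X.card) * (D.card : ℝ) ^ 3 := by
      calc (D.card : ℝ) ^ 4 ≤ (K ^ 185 * (6 ^ r * q (K * D.card) ^ 3 * q X.card)) ^ 4 :=
            pow_le_pow_left₀ hDpos.le h1 4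
        _ = K ^ 740 * (6 ^ r) ^ 4 * (q (K * D.card) ^ 4) ^ 3 * (q (X.card : ℝ) ^ 4) := by ring
        _ = K ^ 740 * 1296 ^ r * (K * D.card) ^ 3 * X.card := by
          rw [q_pow (by positivity), q_pow (by positivity), ← pow_mul, mul_comm r 4, pow_mul]
          norm_num
        _ = _ := by ring
    have h3 : (D.card : ℝ) ≤ K ^ 743 * 1296 ^ r * X.card := by
      have h4 : (D.card : ℝ) ^ 4 = D.card * (D.card : ℝ) ^ 3 := by ring
      rw [h4] at h2
      exact le_of_mul_le_mul_right h2 (pow_pos hDpos 3)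
    have h5 : (1296 : ℝ) ^ r ≤ 4096 * K ^ 3993 :=
      (pow_le_pow_left₀ (by norm_num) (by norm_num) r).trans (pow_bound hK1 hr)
    calc (D.card : ℝ) ≤ K ^ 743 * 1296 ^ r * X.card := h3
      _ ≤ K ^ 743 * (4096 * K ^ 3993) * X.card := by
        refine mul_le_mul_of_nonneg_right (mul_le_mul_of_nonneg_left h5 (by positivity)) hXpos.le
      _ = 4096 * K ^ 4736 * X.card := by ring

end Pool.Agent.V1161.PF
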