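import Pool.Agent.V1161.PF.C

/-!
# The polynomial Freiman-Ruzsa conjecture for unions of products of nested convex sets
-/

set_option autoImplicit false

namespace Pool.Agent.V1161.PF

open Finset
open scoped Pointwise
open Pool.Agent.Y806.DF

theorem toData {Γ : Type*} [AddCommGroup Γ] [DecidableEq Γ] {K : ℝ} {A : Finset Γ}
    (hA : A.Nonempty) (hK : ((A + A).card : ℝ) ≤ K * A.card) {d : ℕ}
    {D X : Finset (Fin d → ℤ)} {ψ : (Fin d → ℤ) →+ Γ}
    {H : AddSubgroup Γ} {g : Γ} (hne : D.Nonempty) {R : ℝ} (hR : 1 ≤ R) (hXD : X ⊆ D)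
    (hX : X.Nonempty) (hhull : hull X ⊆ X) (hDX : (D.card : ℝ) ≤ R * X.card)
    (hDK : ((D + D).card : ℝ) ≤ K * D.card) (hfin : Finite H)
    (hsize : (D.card : ℝ) * Nat.card H ≤ K * A.card)
    (hmeet : (A.card : ℝ) ≤ K * ({a : Γ | a ∈ A ∧ ∃ x ∈ D, ∃ h ∈ H, a = g + ψ x + h}.ncard : ℝ)) :
    ∃ g' : Γ, Data (R * K ^ 3) A X ψ H g' := by
  classical
  have hK1 := one_le_K hA hK
  have hK0 : 0 < K := by linarith
  have hR0 : 0 < R := by linarith
  have hXpos : (0 : ℝ) < X.card := by exact_mod_cast hX.card_pos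
  have hDpos : (0 : ℝ) < D.card := by exact_mod_cast hne.card_pos
  set A1 := A.filter (fun a => ∃ x ∈ D, ∃ h ∈ H, a = g + ψ x + h) with hA1
  have e1 : ({a : Γ | a ∈ A ∧ ∃ x ∈ D, ∃ h ∈ H, a = g + ψ x + h}.ncard : ℝ) = A1.card := by
    have : {a : Γ | a ∈ A ∧ ∃ x ∈ D, ∃ h ∈ H, a = g + ψ x + h} = (A1 : Set Γ) := by
      ext a
      rw [Finset.mem_coe, hA1, Finset.mem_filter]
      rfl
    rw [this, Set.ncard_coe_finset]
  rw [e1] at hmeet
  have hch : ∀ a : Γ, ∃ x : Fin d → ℤ, a ∈ A1 → x ∈ D ∧ ∃ h ∈ H, a = g + ψ x + h := by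
    intro a
    by_cases ha : a ∈ A1
    · obtain ⟨x, hx, h, hh, e⟩ := (Finset.mem_filter.1 ha).2
      exact ⟨x, fun _ => ⟨hx, h, hh, e⟩⟩
    · exact ⟨0, fun h => absurd h ha⟩
  choose xa hxa using hch
  -- differences
  have hdiff : ((D - X).card : ℝ) ≤ K ^ 2 * D.card := by
    have h1 : ((D - D).card : ℝ) * D.card ≤ (K ^ 2 * D.card) * D.card := by
      have h2 := Finset.ruzsa_triangle_inequality_sub_add_add D D D
      calc ((D - D).card : ℝ) * D.card ≤ (D + D).card * (D + D).card := by exact_mod_cast h2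
        _ ≤ (K * D.card) * (K * D.card) := mul_le_mul hDK hDK (Nat.cast_nonneg _) (by positivity)
        _ = _ := by ring
    have h3 := le_of_mul_le_mul_right h1 hDpos
    have h4 : ((D - X).card : ℝ) ≤ (D - D).card := by
      exact_mod_cast Finset.card_le_card (Finset.sub_subset_sub_left hXD)
    exact h4.trans h3
  have hDXne : (D - X).Nonempty := hne.sub hX
  have hDXpos : (0 : ℝ) < (D - X).card := by exact_mod_cast hDXne.card_pos
  -- averaging
  have hcount : (A1.card : ℝ) * X.card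
      ≤ ∑ t ∈ D - X, ((A1.filter (fun a => xa a - t ∈ X)).card : ℝ) := by
    have h1 := Finset.sum_card_bipartiteAbove_eq_sum_card_bipartiteBelow (s := D - X) (t := A1)
      (fun t a => xa a - t ∈ X)
    have h2 : ∑ t ∈ D - X, (A1.filter (fun a => xa a - t ∈ X)).card
        = ∑ a ∈ A1, ((D - X).filter (fun t => xa a - t ∈ X)).card := h1
    have h3 : A1.card * X.card ≤ ∑ a ∈ A1, ((D - X).filter (fun t => xa a - t ∈ X)).card := by
      rw [← smul_eq_mul, ← Finset.sum_const]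
      refine Finset.sum_le_sum (fun a ha => ?_)
      refine Finset.card_le_card_of_injOn (fun p => xa a - p) ?_ ?_
      · intro p hp
        refine Finset.mem_coe.2 (Finset.mem_filter.2 ⟨?_, ?_⟩)
        · exact Finset.sub_mem_sub (hxa a ha).1 (Finset.mem_coe.1 hp)
        · show xa a - (xa a - p) ∈ X
          rw [sub_sub_cancel]
          exact Finset.mem_coe.1 hp
      · intro p _ p' _ h
        exact sub_right_injective h
    rw [← h2] at h3
    exact_mod_cast h3
  obtain ⟨t, ht, hft⟩ : ∃ t ∈ D - X, (A1.card : ℝ) * X.card / (D - X).card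
      ≤ ((A1.filter (fun a => xa a - t ∈ X)).card : ℝ) := by
    refine Finset.exists_le_of_sum_le hDXne ?_
    rw [Finset.sum_const, nsmul_eq_mul, mul_div_cancel₀ _ hDXpos.ne']
    exact hcount
  rw [div_le_iff₀ hDXpos] at hft
  have hbig : (1 : ℝ) ≤ R * K ^ 3 := one_le_mul_of_one_le_of_one_le hR (one_le_pow₀ hK1)
  have hKbig : K ≤ R * K ^ 3 := by
    calc K = 1 * K ^ 1 := by ring
      _ ≤ R * K ^ 3 := mul_le_mul hR (pow_le_pow_right₀ hK1 (by norm_num))
        (by positivity) hR0.le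
  refine ⟨g + ψ t, hX, hfin, ?_, ?_, ?_, ?_⟩
  · calc ((X + X).card : ℝ) ≤ (D + D).card := by
          exact_mod_cast Finset.card_le_card (Finset.add_subset_add hXD hXD)
      _ ≤ K * D.card := hDK
      _ ≤ K * (R * X.card) := mul_le_mul_of_nonneg_left hDX hK0.le
      _ = (R * K ^ 1) * X.card := by ring
      _ ≤ (R * K ^ 3) * X.card := by
        refine mul_le_mul_of_nonneg_right (mul_le_mul_of_nonneg_left ?_ hR0.le) hXpos.le
        exact pow_le_pow_right₀ hK1 (by norm_num)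
  · have h1 : (hull X).ncard ≤ X.card := by
      rw [← Set.ncard_coe_finset]
      exact Set.ncard_le_ncard hhull (Finset.finite_toSet X)
    calc ((hull X).ncard : ℝ) ≤ X.card := by exact_mod_cast h1
      _ = 1 * X.card := (one_mul _).symm
      _ ≤ (R * K ^ 3) * X.card := mul_le_mul_of_nonneg_right hbig hXpos.le
  · calc (X.card : ℝ) * Nat.card H ≤ D.card * Nat.card H :=
          mul_le_mul_of_nonneg_right (by exact_mod_cast Finset.card_le_card hXD) (Nat.cast_nonneg _)
      _ ≤ K * A.card := hsize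
      _ ≤ (R * K ^ 3) * A.card := mul_le_mul_of_nonneg_right hKbig (Nat.cast_nonneg _)
  · set F := A1.filter (fun a => xa a - t ∈ X) with hF
    have h1 : (F.card : ℝ) ≤ ({a : Γ | a ∈ A ∧ ∃ x ∈ X, ∃ h ∈ H, a = g + ψ t + ψ x + h}.ncard : ℝ) := by
      rw [← Set.ncard_coe_finset]
      have hf : {a : Γ | a ∈ A ∧ ∃ x ∈ X, ∃ h ∈ H, a = g + ψ t + ψ x + h}.Finite :=
        (Finset.finite_toSet A).subset (fun a ha => ha.1)
      have hsub : (F : Set Γ) ⊆ {a : Γ | a ∈ A ∧ ∃ x ∈ X, ∃ h ∈ H, a = g + ψ t + ψ x + h} := by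
        intro a ha
        obtain ⟨ha1, ha2⟩ := Finset.mem_filter.1 (Finset.mem_coe.1 ha)
        obtain ⟨-, h, hh, e⟩ := hxa a ha1
        refine ⟨(Finset.mem_filter.1 ha1).1, xa a - t, ha2, h, hh, ?_⟩
        rw [map_sub]
        conv_lhs => rw [e]
        abel
      exact_mod_cast Set.ncard_le_ncard hsub hf
    have h2 : (A1.card : ℝ) * X.card ≤ (F.card * (R * K ^ 2)) * X.card := by
      calc (A1.card : ℝ) * X.card ≤ F.card * (D - X).card := hft
        _ ≤ F.card * (K ^ 2 * D.card) := mul_le_mul_of_nonneg_left hdiff (Nat.cast_nonneg _)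
        _ ≤ F.card * (K ^ 2 * (R * X.card)) :=
          mul_le_mul_of_nonneg_left (mul_le_mul_of_nonneg_left hDX (by positivity)) (Nat.cast_nonneg _)
        _ = _ := by ring
    have h3 := le_of_mul_le_mul_right h2 hXpos
    calc (A.card : ℝ) ≤ K * A1.card := hmeet
      _ ≤ K * (F.card * (R * K ^ 2)) := mul_le_mul_of_nonneg_left h3 hK0.le
      _ = (R * K ^ 3) * F.card := by ring
      _ ≤ _ := mul_le_mul_of_nonneg_left h1 (by positivity)

/-- Families of convex sets: the members of `𝓒 i` are convex, contain `0` and are defined by conditions on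
the coordinates in the block `i`; the family `𝓒 i` is a union of at most `L` chains. -/
structure Families {d n : ℕ} (L : ℕ) (c : Fin d → Fin n) (𝓒 : Fin n → Set (Set (Fin d → ℝ))) : Prop where
  conv : ∀ i, ∀ U ∈ 𝓒 i, Convex ℝ U
  zero : ∀ i, ∀ U ∈ 𝓒 i, (0 : Fin d → ℝ) ∈ U
  cyl : ∀ i, ∀ U ∈ 𝓒 i, ∀ u v : Fin d → ℝ, (∀ j, c j = i → u j = v j) → u ∈ U → v ∈ U
  width : ∀ i, ∃ 𝓐 : Fin L → Set (Set (Fin d → ℝ)), (∀ s, IsChain (· ⊆ ·) (𝓐 s)) ∧
    ∀ U ∈ 𝓒 i, ∃ s, U ∈ 𝓐 s

theorem pow_L {K : ℝ} (hK : 1 ≤ K) {L r : ℕ} (hL : 1 ≤ L) (hr : (r : ℝ) ≤ 480 * Real.log K + 1) :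
    (L : ℝ) ^ r ≤ L * K ^ (480 * L) := by
  have hK0 : 0 < K := by linarith
  have hL0 : (0 : ℝ) < L := by exact_mod_cast hL
  have hl0 : 0 ≤ Real.log L := Real.log_nonneg (by exact_mod_cast hL)
  have hlL : Real.log L ≤ L := (Real.log_le_sub_one_of_pos hL0).trans (by linarith)
  have hlK : 0 ≤ Real.log K := Real.log_nonneg hK
  have h2 : Real.log ((L : ℝ) ^ r) ≤ Real.log (L * K ^ (480 * L)) := by
    rw [Real.log_pow, Real.log_mul hL0.ne' (by positivity), Real.log_pow]
    calc (r : ℝ) * Real.log L ≤ (480 * Real.log K + 1) * Real.log L :=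
          mul_le_mul_of_nonneg_right hr hl0
      _ = Real.log L + (480 * Real.log K) * Real.log L := by ring
      _ ≤ Real.log L + (480 * Real.log K) * L := by
        have := mul_le_mul_of_nonneg_left hlL (by positivity : 0 ≤ 480 * Real.log K)
        linarith
      _ = Real.log L + ((480 * L : ℕ) : ℝ) * Real.log K := by push_cast; ring
  exact (Real.log_le_log_iff (by positivity) (by positivity)).1 h2

/-- A large product inside a union of products of members of families of bounded width. -/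
theorem large2 {d n L : ℕ} {c : Fin d → Fin n} {𝓒 : Fin n → Set (Set (Fin d → ℝ))}
    {D : Finset (Fin d → ℤ)} (hL : 1 ≤ L) (h𝓒 : Families L c 𝓒)
    (hD : UnionOfProducts 𝓒 D) (hne : D.Nonempty) {K : ℝ} (hK : ((D + D).card : ℝ) ≤ K * D.card) :
    ∃ X : Finset (Fin d → ℤ), X ⊆ D ∧ X.Nonempty ∧ hull X ⊆ X ∧
      (D.card : ℝ) ≤ 4096 * (L * K ^ (186 + 480 * L)) ^ 4737 * X.card := by
  classical
  have hK1 := one_le_K hne hK
  have hK0 : 0 < K := by linarith
  have hLr : (1 : ℝ) ≤ L := by exact_mod_cast hL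
  choose! U hU hU1 hU2 using hD
  choose 𝓐 h𝓐 h𝓐' using h𝓒.width
  have hs : ∀ (x : Fin d → ℤ) (i : Fin n), ∃ s : Fin L, x ∈ D → U x i ∈ 𝓐 i s := by
    intro x i
    by_cases hx : x ∈ D
    · obtain ⟨s, hs⟩ := h𝓐' i _ (hU x hx i)
      exact ⟨s, fun _ => hs⟩
    · exact ⟨⟨0, hL⟩, fun h => absurd h hx⟩
  choose s hs using hs
  obtain ⟨r, φ, t, Y, hr, hφ, hY, hDY, hsub⟩ := reduce D hne hK1 hK
  obtain ⟨J0, hJ0, hinj⟩ := coords φ hφ
  set J : Finset (Fin n) := J0.image c with hJ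
  have hJr : J.card ≤ r := Finset.card_image_le.trans hJ0
  have hprJ : ∀ x ∈ D, prJ c J x ∈ D := by
    intro x hx
    refine hU2 x hx _ (fun i => ?_)
    by_cases hi : i ∈ J
    · refine h𝓒.cyl i _ (hU x hx i) (re x) _ (fun j hj => ?_) (hU1 x hx i)
      show (x j : ℝ) = ((if c j ∈ J then x j else 0 : ℤ) : ℝ)
      rw [if_pos (by rw [hj]; exact hi)]
    · refine h𝓒.cyl i _ (hU x hx i) 0 _ (fun j hj => ?_) (h𝓒.zero i _ (hU x hx i))
      show (0 : ℝ) = ((if c j ∈ J then x j else 0 : ℤ) : ℝ)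
      rw [if_neg (by rw [hj]; exact hi), Int.cast_zero]
  have hYD : Y.card ≤ (DJ c D J).card := by
    refine Finset.card_le_card_of_injOn (fun y => prJ c J (t + φ y)) ?_ ?_
    · intro y hy
      refine Finset.mem_coe.2 (Finset.mem_filter.2 ⟨hprJ _ (hsub y hy), fun j hj => ?_⟩)
      show (if c j ∈ J then (t + φ y) j else 0) = 0
      rw [if_neg hj]
    · intro y _ y' _ h
      have h1 : y - y' = 0 := by
        refine hinj _ (fun j hj => ?_)
        have h2 := congrFun h j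
        have h3 : (if c j ∈ J then (t + φ y) j else 0) = (if c j ∈ J then (t + φ y') j else 0) := h2
        rw [if_pos (Finset.mem_image_of_mem c hj), if_pos (Finset.mem_image_of_mem c hj)] at h3
        rw [Pi.add_apply, Pi.add_apply] at h3
        rw [map_sub, Pi.sub_apply]
        linarith
      exact sub_eq_zero.1 h1
  have hDJne : (DJ c D J).Nonempty := by
    have h1 := Finset.card_pos.2 hY
    exact Finset.card_pos.1 (by omega)
  -- the most popular choice of the chains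
  obtain ⟨σ, -, hσ⟩ := pigeon (Finset.univ : Finset (J → Fin L)) (DJ c D J) (DJ c D J) hDJne
    (fun σ x => ∀ i : J, s x i = σ i) (Finset.Subset.refl _)
    (fun x _ => ⟨fun i => s x i, Finset.mem_univ _, fun _ => rfl⟩)
  rw [Finset.card_univ, Fintype.card_fun, Fintype.card_fin, Fintype.card_coe] at hσ
  set E := (DJ c D J).filter (fun x => ∀ i : J, s x i = σ i) with hE
  set D' := D.filter (fun y => (∀ j, c j ∉ J → y j = 0) ∧ ∃ x ∈ E, ∀ i ∈ J, re y ∈ U x i) with hD'
  have hED : ∀ x ∈ E, x ∈ D := fun x hx => (Finset.mem_filter.1 (Finset.mem_filter.1 hx).1).1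
  have hED' : E ⊆ D' := by
    intro x hx
    refine Finset.mem_filter.2 ⟨hED x hx, (Finset.mem_filter.1 (Finset.mem_filter.1 hx).1).2,
      x, hx, fun i _ => hU1 x (hED x hx) i⟩
  set 𝓒' : Fin n → Set (Set (Fin d → ℝ)) := fun i =>
    if hi : i ∈ J then {V | V ∈ 𝓒 i ∧ V ∈ 𝓐 i (σ ⟨i, hi⟩)} else {{u | ∀ j, c j = i → u j = 0}} with h𝓒'
  have hin : ∀ i (hi : i ∈ J), 𝓒' i = {V | V ∈ 𝓒 i ∧ V ∈ 𝓐 i (σ ⟨i, hi⟩)} := by
    intro i hi
    simp only [h𝓒', dif_pos hi]
  have hout : ∀ i, i ∉ J → 𝓒' i = {{u | ∀ j, c j = i → u j = 0}} := by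
    intro i hi
    simp only [h𝓒', dif_neg hi]
  have hCh : Chains c 𝓒' := by
    refine ⟨fun i V hV => ?_, fun i V hV => ?_, fun i V hV => ?_, fun i V hV W hW => ?_⟩
    · by_cases hi : i ∈ J
      · rw [hin i hi] at hV
        exact h𝓒.conv i V hV.1
      · rw [hout i hi, Set.mem_singleton_iff] at hV
        rw [hV]
        intro u hu v hv a b _ _ _ j hj
        show a * u j + b * v j = 0
        rw [hu j hj, hv j hj]; ring
    · by_cases hi : i ∈ J
      · rw [hin i hi] at hV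
        exact h𝓒.zero i V hV.1
      · rw [hout i hi, Set.mem_singleton_iff] at hV
        rw [hV]
        intro j _
        rfl
    · by_cases hi : i ∈ J
      · rw [hin i hi] at hV
        exact h𝓒.cyl i V hV.1
      · rw [hout i hi, Set.mem_singleton_iff] at hV
        rw [hV]
        intro u v huv hu j hj
        rw [← huv j hj]
        exact hu j hj
    · by_cases hi : i ∈ J
      · rw [hin i hi] at hV hW
        exact (h𝓐 i _).total hV.2 hW.2
      · rw [hout i hi, Set.mem_singleton_iff] at hV hW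
        rw [hV, hW]
        exact Or.inl (Set.Subset.refl _)
  have hUn : UnionOfProducts 𝓒' D' := by
    intro y hy
    obtain ⟨hyD, hy0, x, hx, hxy⟩ := Finset.mem_filter.1 hy
    have hxD := hED x hx
    refine ⟨fun i => if i ∈ J then U x i else {u | ∀ j, c j = i → u j = 0}, fun i => ?_, fun i => ?_,
      fun y' hy' => ?_⟩
    · by_cases hi : i ∈ J
      · rw [hin i hi]
        simp only [if_pos hi]
        refine ⟨hU x hxD i, ?_⟩
        have h1 := (Finset.mem_filter.1 hx).2 ⟨i, hi⟩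
        have h2 := hs x i hxD
        rw [h1] at h2
        exact h2
      · rw [hout i hi]
        simp only [if_neg hi]
        exact Set.mem_singleton _
    · by_cases hi : i ∈ J
      · simp only [if_pos hi]
        exact hxy i hi
      · simp only [if_neg hi]
        intro j hj
        show (y j : ℝ) = 0
        rw [hy0 j (by rw [hj]; exact hi), Int.cast_zero]
    · have h1 : ∀ i ∈ J, re y' ∈ U x i := by
        intro i hi
        have := hy' i
        simp only [if_pos hi] at this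
        exact this
      have h2 : ∀ j, c j ∉ J → y' j = 0 := by
        intro j hj
        have := hy' (c j)
        simp only [if_neg hj] at this
        have h3 : (y' j : ℝ) = 0 := this j rfl
        exact_mod_cast h3
      refine Finset.mem_filter.2 ⟨hU2 x hxD y' (fun i => ?_), h2, x, hx, h1⟩
      by_cases hi : i ∈ J
      · exact h1 i hi
      · refine h𝓒.cyl i _ (hU x hxD i) 0 _ (fun j hj => ?_) (h𝓒.zero i _ (hU x hxD i))
        show (0 : ℝ) = (y' j : ℝ)
        rw [h2 j (by rw [hj]; exact hi), Int.cast_zero]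
  have hEne : E.Nonempty := by
    rw [← Finset.card_pos]
    by_contra h
    have h1 : E.card = 0 := by omega
    have h2 := Finset.card_pos.2 hDJne
    rw [h1, mul_zero] at hσ
    omega
  have hD'ne : D'.Nonempty := hEne.mono hED'
  have hD'D : D' ⊆ D := Finset.filter_subset _ _
  -- the number of elements
  have hcard : (D.card : ℝ) ≤ K ^ 185 * (L * K ^ (480 * L)) * D'.card := by
    calc (D.card : ℝ) ≤ K ^ 185 * Y.card := hDY
      _ ≤ K ^ 185 * ((L : ℝ) ^ J.card * D'.card) := by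
        refine mul_le_mul_of_nonneg_left ?_ (by positivity)
        have h1 : Y.card ≤ L ^ J.card * D'.card :=
          hYD.trans (hσ.trans (Nat.mul_le_mul_left _ (Finset.card_le_card hED')))
        exact_mod_cast h1
      _ ≤ K ^ 185 * ((L * K ^ (480 * L)) * D'.card) := by
        refine mul_le_mul_of_nonneg_left (mul_le_mul_of_nonneg_right ?_ (Nat.cast_nonneg _)) (by positivity)
        exact (pow_le_pow_right₀ hLr hJr).trans (pow_L hK1 hL hr)
      _ = _ := by ring
  set K1 : ℝ := L * K ^ (186 + 480 * L) with hK1def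
  have e1 : K * (K ^ 185 * (L * K ^ (480 * L))) = K1 := by
    rw [hK1def, pow_add]
    have : K ^ 186 = K * K ^ 185 := by ring
    rw [this]; ring
  have hdbl : ((D' + D').card : ℝ) ≤ K1 * D'.card := by
    calc ((D' + D').card : ℝ) ≤ (D + D).card := by
          exact_mod_cast Finset.card_le_card (Finset.add_subset_add hD'D hD'D)
      _ ≤ K * D.card := hK
      _ ≤ K * (K ^ 185 * (L * K ^ (480 * L)) * D'.card) := mul_le_mul_of_nonneg_left hcard hK0.le
      _ = K1 * D'.card := by rw [← e1]; ring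
  obtain ⟨X, hXD', hX, hhull, hbound⟩ := large hCh hUn hD'ne hdbl
  refine ⟨X, hXD'.trans hD'D, hX, hhull, ?_⟩
  have hle : K ^ 185 * (L * K ^ (480 * L)) ≤ K1 := by
    rw [← e1]
    exact le_mul_of_one_le_left (by positivity) hK1
  have hK10 : 0 < K1 := by positivity
  calc (D.card : ℝ) ≤ K ^ 185 * (L * K ^ (480 * L)) * D'.card := hcard
    _ ≤ K1 * D'.card := mul_le_mul_of_nonneg_right hle (Nat.cast_nonneg _)
    _ ≤ K1 * (4096 * K1 ^ 4736 * X.card) := mul_le_mul_of_nonneg_left hbound hK10.le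
    _ = 4096 * K1 ^ 4737 * X.card := by ring

/-- The constant. -/
def Cst (L : ℕ) : ℕ := 5000 * (4096 * L ^ 4737) ^ 5000 + 5000 * ((186 + 480 * L) * 4737 + 3)

theorem conclusion {Γ : Type*} [AddCommGroup Γ] [DecidableEq Γ] {K : ℝ} {A : Finset Γ}
    (hA : A.Nonempty) (hK : ((A + A).card : ℝ) ≤ K * A.card) {L d n : ℕ} (hL : 1 ≤ L)
    {c : Fin d → Fin n}
    {𝓒 : Fin n → Set (Set (Fin d → ℝ))} {D : Finset (Fin d → ℤ)} {ψ : (Fin d → ℤ) →+ Γ}
    {H : AddSubgroup Γ} {g : Γ} (h𝓒 : Families L c 𝓒) (hD : UnionOfProducts 𝓒 D) (hne : D.Nonempty)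
    (hDK : ((D + D).card : ℝ) ≤ K * D.card) (hfin : Finite H)
    (hsize : (D.card : ℝ) * Nat.card H ≤ K * A.card)
    (hmeet : (A.card : ℝ) ≤ K * ({a : Γ | a ∈ A ∧ ∃ x ∈ D, ∃ h ∈ H, a = g + ψ x + h}.ncard : ℝ)) :
    ∃ (r : ℕ) (B : Set (Fin r → ℝ)) (θ : (Fin r → ℤ) →+ Γ) (H' : AddSubgroup Γ) (T : Finset Γ),
      (r : ℝ) ≤ Cst L * Real.log (2 * K) ∧ Body B ∧ Finite H' ∧
      (lat B).ncard * Nat.card H' ≤ A.card ∧ (T.card : ℝ) ≤ Cst L * K ^ Cst L ∧ Cov B θ H' T A := by
  have hK1 := one_le_K hA hK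
  have hK0 : 0 < K := by linarith
  have hLr : (1 : ℝ) ≤ L := by exact_mod_cast hL
  obtain ⟨X, hXD, hX, hhull, hDX⟩ := large2 hL h𝓒 hD hne hDK
  have hR1 : (1 : ℝ) ≤ 4096 * (L * K ^ (186 + 480 * L)) ^ 4737 :=
    one_le_mul_of_one_le_of_one_le (by norm_num)
      (one_le_pow₀ (one_le_mul_of_one_le_of_one_le hLr (one_le_pow₀ hK1)))
  obtain ⟨g', hData⟩ := toData hA hK hne hR1 hXD hX hhull hDX hDK hfin hsize hmeet
  set a : ℕ := 4096 * L ^ 4737 with ha
  set e : ℕ := (186 + 480 * L) * 4737 + 3 with he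
  have ha1 : 1 ≤ a := Nat.mul_pos (by norm_num) (Nat.pow_pos hL)
  have har : (1 : ℝ) ≤ a := by exact_mod_cast ha1
  have eK : 4096 * ((L : ℝ) * K ^ (186 + 480 * L)) ^ 4737 * K ^ 3 = a * K ^ e := by
    rw [mul_pow, ← pow_mul, ha, he, pow_add K ((186 + 480 * L) * 4737) 3]
    push_cast
    rw [mul_assoc, mul_assoc, mul_assoc]
  rw [eK] at hData
  have hKbig : K ≤ a * K ^ e := by
    calc K = 1 * K ^ 1 := by ring
      _ ≤ a * K ^ e := mul_le_mul har (pow_le_pow_right₀ hK1 (by rw [he]; omega))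
        (by positivity) (by positivity)
  obtain ⟨r, B, θ, H', T, h1, h2, h3, h4, h5, h6⟩ := main hA
    (hK.trans (mul_le_mul_of_nonneg_right hKbig (Nat.cast_nonneg _))) hData
  have hC : Cst L = 5000 * a ^ 5000 + 5000 * e := by rw [ha, he, Cst]
  have haa : (a : ℝ) ≤ (a : ℝ) ^ 5000 := by
    calc (a : ℝ) = (a : ℝ) ^ 1 := (pow_one _).symm
      _ ≤ (a : ℝ) ^ 5000 := pow_le_pow_right₀ har (by norm_num)
  have hCr : (Cst L : ℝ) = 5000 * (a : ℝ) ^ 5000 + 5000 * e := by rw [hC]; push_cast; rfl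
  have hlog2 : 0.69 < Real.log (2 * K) := by
    have h1 := Real.log_two_gt_d9
    have h2 := Real.log_le_log (by norm_num : (0 : ℝ) < 2) (by linarith : (2 : ℝ) ≤ 2 * K)
    linarith
  have hlogK : Real.log K ≤ Real.log (2 * K) := Real.log_le_log hK0 (by linarith)
  have he0 : (0 : ℝ) ≤ e := Nat.cast_nonneg _
  refine ⟨r, B, θ, H', T, ?_, h2, h3, h4, ?_, h6⟩
  · have h7 : Real.log (2 * (a * K ^ e)) ≤ 2 * a + e * Real.log K := by
      rw [← mul_assoc, Real.log_mul (by positivity) (by positivity), Real.log_pow]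
      have h8 : Real.log (2 * a) ≤ 2 * a := by
        have := Real.log_le_sub_one_of_pos (by positivity : (0 : ℝ) < 2 * a)
        linarith
      linarith
    have h9 : (2 * a : ℝ) ≤ 4 * a * Real.log (2 * K) := by
      have h90 : (0 : ℝ) ≤ 4 * a := by positivity
      have h91 : (4 * a : ℝ) * 0.69 ≤ 4 * a * Real.log (2 * K) := mul_le_mul_of_nonneg_left hlog2.le h90
      refine le_trans ?_ h91
      clear h91 haa hCr hC h5
      linarith
    have h10 : (e : ℝ) * Real.log K ≤ e * Real.log (2 * K) := mul_le_mul_of_nonneg_left hlogK he0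
    calc (r : ℝ) ≤ 500 * Real.log (2 * (a * K ^ e)) := h1
      _ ≤ 500 * (4 * a * Real.log (2 * K) + e * Real.log (2 * K)) :=
        mul_le_mul_of_nonneg_left (h7.trans (add_le_add h9 h10)) (by norm_num)
      _ = (2000 * a + 500 * e) * Real.log (2 * K) := by ring
      _ ≤ Cst L * Real.log (2 * K) := by
        refine mul_le_mul_of_nonneg_right ?_ (by linarith)
        rw [hCr]
        linarith
  · calc (T.card : ℝ) ≤ 5000 * (a * K ^ e) ^ 5000 := h5
      _ = (5000 * (a : ℝ) ^ 5000) * K ^ (e * 5000) := by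
        rw [mul_pow, ← pow_mul, mul_assoc]
      _ ≤ Cst L * K ^ Cst L := by
        refine mul_le_mul ?_ (pow_le_pow_right₀ hK1 ?_) (by positivity) (Nat.cast_nonneg _)
        · rw [hCr]; linarith
        · rw [hC]
          have h11 : 0 ≤ 5000 * a ^ 5000 := Nat.zero_le _
          calc e * 5000 = 5000 * e := mul_comm _ _
            _ ≤ 5000 * a ^ 5000 + 5000 * e := Nat.le_add_left _ _

end Pool.Agent.V1161.PF
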