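import Pool.Agent.V1161.PF.D

/-!
# Sets of integer points closed under moving coordinates towards zero
-/

set_option autoImplicit false

namespace Pool.Agent.V1161.PF

open Finset
open scoped Pointwise
open Pool.Agent.Y806.DF

/-- the intervals `0 ≤ u_i ≤ k`, `-k ≤ u_i ≤ 0` -/
def ints (d : ℕ) (i : Fin d) : Set (Set (Fin d → ℝ)) :=
  {U | ∃ k : ℤ, 0 ≤ k ∧ U = {u : Fin d → ℝ | 0 ≤ u i ∧ u i ≤ (k : ℝ)}} ∪ {U | ∃ k : ℤ, k ≤ 0 ∧ U = {u : Fin d → ℝ | (k : ℝ) ≤ u i ∧ u i ≤ 0}}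

theorem ints_families (d : ℕ) : Families 2 (id : Fin d → Fin d) (ints d) where
  conv := by
    rintro i U (⟨k, hk, rfl⟩ | ⟨k, hk, rfl⟩)
    · intro u hu v hv a b ha hb hab
      show 0 ≤ a * u i + b * v i ∧ a * u i + b * v i ≤ k
      have h1 := mul_nonneg ha hu.1
      have h2 := mul_nonneg hb hv.1
      have h3 := mul_le_mul_of_nonneg_left hu.2 ha
      have h4 := mul_le_mul_of_nonneg_left hv.2 hb
      have h5 : a * (k : ℝ) + b * k = k := by rw [← add_mul, hab, one_mul]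
      exact ⟨by linarith, by linarith⟩
    · intro u hu v hv a b ha hb hab
      show (k : ℝ) ≤ a * u i + b * v i ∧ a * u i + b * v i ≤ 0
      have h1 := mul_le_mul_of_nonneg_left hu.1 ha
      have h2 := mul_le_mul_of_nonneg_left hv.1 hb
      have h3 := mul_le_mul_of_nonneg_left hu.2 ha
      have h4 := mul_le_mul_of_nonneg_left hv.2 hb
      have h5 : a * (k : ℝ) + b * k = k := by rw [← add_mul, hab, one_mul]
      exact ⟨by linarith, by linarith⟩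
  zero := by
    rintro i U (⟨k, hk, rfl⟩ | ⟨k, hk, rfl⟩)
    · exact ⟨le_rfl, show (0 : ℝ) ≤ (k : ℝ) by exact_mod_cast hk⟩
    · exact ⟨show (k : ℝ) ≤ (0 : ℝ) by exact_mod_cast hk, le_rfl⟩
  cyl := by
    rintro i U (⟨k, hk, rfl⟩ | ⟨k, hk, rfl⟩) u v huv hu
    · have h := huv i rfl
      show 0 ≤ v i ∧ v i ≤ k
      rw [← h]; exact hu
    · have h := huv i rfl
      show (k : ℝ) ≤ v i ∧ v i ≤ 0
      rw [← h]; exact hu
  width := by
    intro i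
    refine ⟨![{U | ∃ k : ℤ, 0 ≤ k ∧ U = {u : Fin d → ℝ | 0 ≤ u i ∧ u i ≤ (k : ℝ)}},
      {U | ∃ k : ℤ, k ≤ 0 ∧ U = {u : Fin d → ℝ | (k : ℝ) ≤ u i ∧ u i ≤ 0}}], ?_, ?_⟩
    · intro s
      fin_cases s
      · rintro _ ⟨k, -, rfl⟩ _ ⟨l, -, rfl⟩ _
        rcases le_total k l with h | h
        · have hr : (k : ℝ) ≤ l := by exact_mod_cast h
          exact Or.inl (fun u hu => ⟨hu.1, hu.2.trans hr⟩)
        · have hr : (l : ℝ) ≤ k := by exact_mod_cast h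
          exact Or.inr (fun u hu => ⟨hu.1, hu.2.trans hr⟩)
      · rintro _ ⟨k, -, rfl⟩ _ ⟨l, -, rfl⟩ _
        rcases le_total k l with h | h
        · have hr : (k : ℝ) ≤ l := by exact_mod_cast h
          exact Or.inr (fun u hu => ⟨hr.trans hu.1, hu.2⟩)
        · have hr : (l : ℝ) ≤ k := by exact_mod_cast h
          exact Or.inl (fun u hu => ⟨hr.trans hu.1, hu.2⟩)
    · rintro U (h | h)
      · exact ⟨0, h⟩
      · exact ⟨1, h⟩

theorem ints_union {d : ℕ} {A : Finset (Fin d → ℤ)}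
    (hA : ∀ x ∈ A, ∀ y : Fin d → ℤ, (∀ j, (0 ≤ y j ∧ y j ≤ x j) ∨ (x j ≤ y j ∧ y j ≤ 0)) → y ∈ A) :
    UnionOfProducts (ints d) A := by
  classical
  intro x hx
  refine ⟨fun i => if 0 ≤ x i then {u | 0 ≤ u i ∧ u i ≤ (x i : ℝ)} else {u | (x i : ℝ) ≤ u i ∧ u i ≤ 0},
    fun i => ?_, fun i => ?_, fun y hy => hA x hx y (fun i => ?_)⟩
  · show (if 0 ≤ x i then {u : Fin d → ℝ | 0 ≤ u i ∧ u i ≤ (x i : ℝ)}
      else {u | (x i : ℝ) ≤ u i ∧ u i ≤ 0}) ∈ ints d i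
    split_ifs with h
    · exact Or.inl ⟨x i, h, rfl⟩
    · exact Or.inr ⟨x i, by omega, rfl⟩
  · show re x ∈ (if 0 ≤ x i then {u : Fin d → ℝ | 0 ≤ u i ∧ u i ≤ (x i : ℝ)}
      else {u | (x i : ℝ) ≤ u i ∧ u i ≤ 0})
    split_ifs with h
    · exact ⟨show (0 : ℝ) ≤ (x i : ℝ) by exact_mod_cast h, le_rfl⟩
    · have h' : x i ≤ 0 := by omega
      exact ⟨le_rfl, show (x i : ℝ) ≤ 0 by exact_mod_cast h'⟩
  · have h1 : re y ∈ (if 0 ≤ x i then {u : Fin d → ℝ | 0 ≤ u i ∧ u i ≤ (x i : ℝ)}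
      else {u | (x i : ℝ) ≤ u i ∧ u i ≤ 0}) := hy i
    split_ifs at h1 with h
    · left
      have h2 : (0 : ℝ) ≤ (y i : ℝ) := h1.1
      have h3 : (y i : ℝ) ≤ (x i : ℝ) := h1.2
      exact ⟨by exact_mod_cast h2, by exact_mod_cast h3⟩
    · right
      have h2 : (x i : ℝ) ≤ (y i : ℝ) := h1.1
      have h3 : (y i : ℝ) ≤ (0 : ℝ) := h1.2
      exact ⟨by exact_mod_cast h2, by exact_mod_cast h3⟩

theorem self_meet {d : ℕ} (A : Finset (Fin d → ℤ)) :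
    {a : Fin d → ℤ | a ∈ A ∧ ∃ x ∈ A, ∃ h ∈ (⊥ : AddSubgroup (Fin d → ℤ)),
        a = 0 + (AddMonoidHom.id (Fin d → ℤ)) x + h} = (A : Set (Fin d → ℤ)) := by
  ext a
  constructor
  · rintro ⟨ha, -⟩
    exact ha
  · intro ha
    exact ⟨ha, a, ha, 0, AddSubgroup.zero_mem _, by simp⟩

theorem anchored {d : ℕ} {K : ℝ} {A : Finset (Fin d → ℤ)} (hA : A.Nonempty)
    (hK : ((A + A).card : ℝ) ≤ K * A.card)
    (hd : ∀ x ∈ A, ∀ y : Fin d → ℤ, (∀ j, (0 ≤ y j ∧ y j ≤ x j) ∨ (x j ≤ y j ∧ y j ≤ 0)) → y ∈ A) :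
    ∃ (r : ℕ) (B : Set (Fin r → ℝ)) (θ : (Fin r → ℤ) →+ (Fin d → ℤ)) (H' : AddSubgroup (Fin d → ℤ))
      (T : Finset (Fin d → ℤ)),
      (r : ℝ) ≤ Cst 2 * Real.log (2 * K) ∧ Body B ∧ Finite H' ∧
      (lat B).ncard * Nat.card H' ≤ A.card ∧ (T.card : ℝ) ≤ Cst 2 * K ^ Cst 2 ∧ Cov B θ H' T A := by
  have hK1 := one_le_K hA hK
  have h1 : (A.card : ℝ) ≤ K * A.card := le_mul_of_one_le_left (Nat.cast_nonneg _) hK1
  refine conclusion (ψ := AddMonoidHom.id (Fin d → ℤ)) (H := ⊥) (g := 0) hA hK (by norm_num)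
    (ints_families d) (ints_union hd) hA hK inferInstance ?_ ?_
  · have : Nat.card (⊥ : AddSubgroup (Fin d → ℤ)) = 1 := by simp
    rw [this, Nat.cast_one, mul_one]
    exact h1
  · rw [self_meet, Set.ncard_coe_finset]
    exact h1

end Pool.Agent.V1161.PF
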